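import Pool.Agent.N198.TF.Def
import Pool.Agent.N993.CoreG

/-!
TF/CORE (helper123, project TF of helper198), adapted from TB/CORE of helper55: odd distributions
and the parities of the box distributions, for families of odd primes and 4.
-/

set_option linter.unusedSectionVars false

namespace Pool.Agent.N123.TF

open Finset Pool.Agent.H916R2 Pool.Agent.N992 Pool.Agent.N993
open Pool.Agent.N198.TB (Sp sq rs one S1 MM bx box Z0)
open Pool.Agent.N198.TF

section

variable {ι : Type} [Fintype ι] [LinearOrder ι] {n : ι → ℕ} [∀ i, NeZero (n i)] {N : ℕ} [NeZero N]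

lemma ext_add {A : Type} [AddCommGroup A] (f g : (cyc n).Pt → A)
    (a : ∀ i, ZMod (n i)) : ext (fun x => f x + g x) a = ext f a + ext g a := by
  classical
  unfold Pool.Agent.N993.ext
  by_cases h : ∃ i, n i = 4 ∧ a i = 2
  · rw [dif_pos h, dif_pos h, dif_pos h]; exact add_sub_add_comm _ _ _ _
  · rw [dif_neg h, dif_neg h, dif_neg h]

lemma ext_zero' {A : Type} [AddCommGroup A] (a : ∀ i, ZMod (n i)) :
    ext (fun _ : (cyc n).Pt => (0 : A)) a = 0 := by
  classical
  unfold Pool.Agent.N993.ext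
  by_cases h : ∃ i, n i = 4 ∧ a i = 2
  · rw [dif_pos h]; exact sub_self _
  · rw [dif_neg h]

lemma ext_sum {A S : Type} [AddCommGroup A] (F : Finset S) (f : S → (cyc n).Pt → A)
    (a : ∀ i, ZMod (n i)) : ext (fun x => ∑ s ∈ F, f s x) a = ∑ s ∈ F, ext (f s) a := by
  classical
  induction F using Finset.induction_on with
  | empty =>
    simp only [sum_empty]
    exact ext_zero' a
  | insert s F hs ih =>
    rw [sum_insert hs, ← ih, ← ext_add]
    congr 1
    funext x
    rw [sum_insert hs]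

lemma symm_eq (E : (∀ i, ZMod (n i)) ≃+* ZMod N) (b : ZMod N) :
    E.symm b = fun i => ((1 * b.val : ℕ) : ZMod (n i)) := by
  apply E.injective
  rw [E.apply_symm_apply, one_mul, ← E_natCast E b.val, ZMod.natCast_zmod_val]

/-- relations for odd distributions with rational values -/
lemma rat_rel (hn : Adm' n)
    (hco : Pairwise (fun i j => (n i).Coprime (n j)))
    (hN : ∏ i, n i = N) (E : (∀ i, ZMod (n i)) ≃+* ZMod N) (x : ZMod N → ℤ) (hx : Rel x)
    (g : (cyc n).Pt → ℚ) (hg : (cyc n).IsD0 univ g)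
    (hgo : ∀ y, g ((cyc n).act (cyc n).c y) = - g y) :
    ∑ b, (x b : ℚ) * ext g (E.symm b) = 0 := by
  have hdist := oddDist_ext hn hco univ hN 1 (fun i hi => absurd (mem_univ i) hi)
    (fun i _ => Nat.coprime_one_left _) hg (fun y _ => hgo y)
  have h1 := Pool.Agent.N998.rat_zero _ hdist x hx
  rw [← h1]
  refine sum_congr rfl fun b _ => ?_
  rw [← symm_eq E b]

/-- TF/CORE -/
theorem core_of
    (hdec : (∀ i, (cyc n).c i ≠ 1) → ∀ (lam : Finset ι → (cyc n).Pt → ℤ),
      (∀ T ⊆ (univ : Finset ι), Even T.card → 4 ≤ T.card → (cyc n).IsD univ (lam T) ∧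
        (cyc n).Ty 1 univ (lam T) ∧ (cyc n).EqS T (lam T) (box T) ∧
        ∀ T' ⊆ (univ : Finset ι), T' ≠ T → T'.card ≤ T.card → (cyc n).EqS T' (lam T) 0) →
      ∀ (nu : (cyc n).Pt → ℤ), (cyc n).IsD univ nu → (cyc n).Ty 1 univ nu →
      (∀ T ⊆ (univ : Finset ι), Even T.card → T.card ≤ 2 → (cyc n).Img 1 T nu) →
      ∃ e : Finset ι → ℤ, (cyc n).Img 1 univ
        (nu - ∑ T ∈ (univ : Finset ι).powerset.filter (fun T => Even T.card ∧ 4 ≤ T.card),
          e T • lam T))
    (hn : Adm' n)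
    (hco : Pairwise (fun i j => (n i).Coprime (n j)))
    (hN : ∏ i, n i = N) (E : (∀ i, ZMod (n i)) ≃+* ZMod N) {Q : Type} [AddCommGroup Q]
    {c : ZMod N → Q} (hc : OddDist c)
    (hT : ∀ T : Finset ι, T.card = 2 → ∀ (mT l : ℕ) [NeZero mT], ∏ i ∈ T, n i = mT →
      l * mT = N → ∀ x : ZMod mT → ℤ, Rel x → ∑ b, x b • c (iota l b) = 0)
    (lam : Finset ι → (cyc n).Pt → ℤ)
    (hlam : ∀ T, Even T.card → 4 ≤ T.card → (cyc n).IsD univ (lam T) ∧
      (cyc n).Ty 1 univ (lam T) ∧ (cyc n).EqS T (lam T) (box T) ∧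
      ∀ T', T' ≠ T → T'.card ≤ T.card → (cyc n).EqS T' (lam T) 0)
    (x : ZMod N → ℤ) (hx : Rel x)
    (hbox : ∀ T : Finset ι, Even T.card → 4 ≤ T.card →
      2 ∣ ∑ b, x b * ext (lam T) (E.symm b)) :
    ∑ b, x b • c b = 0 := by
  classical
  have hn' : Adm' n := hn
  refine CharacterModule.eq_zero_of_character_apply fun φ0 => ?_
  let φ : Q →+ AddCircle (1 : ℚ) := φ0
  change φ _ = 0
  let D := cyc n
  have hsupp : ∀ x : D.Pt, D.Supp univ x := fun x i hi => absurd (mem_univ i) hi
  -- the distribution with values in the circle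
  have hcφ : OddDist (fun a => φ (c a)) := Pool.Agent.N998.oddDist_map hc φ
  set f : D.Pt → AddCircle (1 : ℚ) := fun x => φ (c (E (emb x))) with hf
  have hfD : D.IsD0 univ f := (isD0_of_oddDist hn' hco hN E hcφ).1
  have hfo : ∀ x, f (D.act D.c x) = - f x := fun x => (isD0_of_oddDist hn' hco hN E hcφ).2 x
  -- lift to the rational numbers
  let π : ℚ →+ AddCircle (1 : ℚ) := QuotientAddGroup.mk' (AddSubgroup.zmultiples (1 : ℚ))
  have hπ : ∀ q : ℚ, π q = (q : AddCircle (1 : ℚ)) := fun q => rfl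
  obtain ⟨ft, hft, hft'⟩ : ∃ g : D.Pt → ℚ, D.IsD0 univ g ∧ ∀ x, π (g x) = f x := by
    let _ := D.trivAct ℚ
    let _ := D.trivAct (AddCircle (1 : ℚ))
    obtain ⟨g, hg, hg'⟩ := Dat.exists_lift (D := D) univ π (fun _ _ => rfl)
      (QuotientAddGroup.mk'_surjective _) (f := f) hfD
    exact ⟨g, hg, fun x => hg' x (hsupp x)⟩
  have hker : ∀ q : ℚ, π q = 0 → ∃ k : ℤ, q = k := by
    intro q hq
    rw [hπ, AddCircle.coe_eq_zero_iff] at hq
    obtain ⟨k, hk⟩ := hq
    exact ⟨k, by rw [← hk]; simp⟩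
  have hint : ∀ k : ℤ, π (k : ℚ) = 0 := by
    intro k
    rw [hπ, AddCircle.coe_eq_zero_iff]
    exact ⟨k, by simp⟩
  -- the integral distribution
  have hν0 : ∀ x, ∃ k : ℤ, ft x + ft (D.act D.c x) = k := by
    intro x
    apply hker
    rw [map_add, hft', hft', hfo, add_neg_cancel]
  choose ν hν using hν0
  have hνD : D.IsD0 univ ν := by
    apply Dat.IsD0.of_cast
    have h1 : D.IsD0 univ (fun x => ft x + ft (D.act D.c x)) := hft.add (hft.act D.c)
    have h2 : (fun x => ft x + ft (D.act D.c x)) = fun x => (ν x : ℚ) := funext hν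
    rwa [h2] at h1
  have hνT : ∀ x, ν (D.act D.c x) = ν x := by
    intro x
    have h1 := hν x
    have h2 := hν (D.act D.c x)
    rw [Dat.act_c_c] at h2
    have : ((ν (D.act D.c x) : ℤ) : ℚ) = ν x := by rw [← h1, ← h2]; ring
    exact_mod_cast this
  -- the weights
  let X := (∀ i, ZMod (n i))ˣ
  let σ : X → D.Pt → ℤ := fun t x => saw (E ((t : ∀ i, ZMod (n i)) * emb x))
  have hσD : ∀ t, D.IsD0 univ (σ t) := by
    intro t
    have h1 := (isD0_of_oddDist hn' hco hN E
      (saw_oddDist' (Units.mapEquiv E.toMulEquiv t))).1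
    have h2 : (fun x : D.Pt => saw (((Units.mapEquiv E.toMulEquiv t : (ZMod N)ˣ) : ZMod N) *
        E (emb x))) = σ t := by
      funext x
      change saw (E t * E (emb x)) = saw (E (t * emb x))
      rw [map_mul]
    rw [h2] at h1
    exact h1
  have hσo : ∀ t x, σ t (D.act D.c x) = - σ t x := by
    intro t x
    have h1 := (isD0_of_oddDist hn' hco hN E
      (saw_oddDist' (Units.mapEquiv E.toMulEquiv t))).2 x
    have h2 : ∀ x : D.Pt, saw (((Units.mapEquiv E.toMulEquiv t : (ZMod N)ˣ) : ZMod N) *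
        E (emb x)) = σ t x := by
      intro x
      change saw (E t * E (emb x)) = saw (E (t * emb x))
      rw [map_mul]
    rw [h2, h2] at h1
    exact h1
  -- the subsets with two elements
  have himg2 : ∀ T : Finset ι, T.card = 2 → D.Img 1 T ν := by
    intro T hTT
    have hmT0 : ∏ i ∈ T, n i ≠ 0 := prod_ne_zero_iff.mpr fun i _ => NeZero.ne (n i)
    have : NeZero (∏ i ∈ T, n i) := ⟨hmT0⟩
    have hlT : (∏ i ∈ univ \ T, n i) * (∏ i ∈ T, n i) = N := by
      rw [← hN]; exact prod_sdiff (subset_univ T)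
    obtain ⟨w, hw⟩ := exists_weights_T hco hN E (c := c) T rfl hlT (hT T hTT _ _ rfl hlT) φ
    set ht : D.Pt → ℚ := fun x => ∑ t : X, ((σ t x : ℤ) : ℚ) * w t with hht
    have hhtD : D.IsD0 univ ht := by
      apply Dat.IsD0.sum
      intro t _
      exact (hσD t).cast.map (AddMonoidHom.mulRight (w t))
    have hhto : ∀ x, ht (D.act D.c x) = - ht x := by
      intro x
      rw [hht]
      beta_reduce
      rw [← sum_neg_distrib]
      refine sum_congr rfl fun t _ => ?_
      rw [hσo]; push_cast; ring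
    have hk0 : ∀ x, ∃ k : ℤ, D.Supp T x → ft x - ht x = k := by
      intro x
      by_cases hx : D.Supp T x
      · have h1 : π (ft x - ht x) = 0 := by
          rw [map_sub, sub_eq_zero, hft']
          exact hw x hx
        obtain ⟨k, hk⟩ := hker _ h1
        exact ⟨k, fun _ => hk⟩
      · exact ⟨0, fun h => absurd h hx⟩
    choose k hkk using hk0
    refine ⟨k, ?_, ?_⟩
    · change D.IsD0 T k
      apply Dat.IsD0.of_cast
      intro i hi x hx h0
      have h1 := (hft.sub hhtD) i (mem_univ i) x (hsupp x) h0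
      beta_reduce at h1 ⊢
      rw [← hkk _ (hx.act _), ← hkk _ (hx.act _), ← h1]
      exact sum_congr rfl fun u _ => (hkk _ (hx.update hi _)).symm
    · intro x hx
      change ν x = k x + 1 * k (D.act D.c x)
      have h1 := hkk x hx
      have h2 := hkk _ (hx.act D.c)
      have h3 := hν x
      rw [hhto] at h2
      have h4 : ((ν x : ℤ) : ℚ) = k x + 1 * k (D.act D.c x) := by
        rw [← h1, ← h2, ← h3]; ring
      exact_mod_cast h4
  -- the empty set
  have himg0 : D.Img 1 ∅ ν := by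
    have h0 : ∃ k : ℤ, ft (fun _ => none) = k := by
      apply hker
      rw [hft', hf]
      have e1 : (emb (fun _ => none : (cyc n).Pt) : ∀ i, ZMod (n i)) = 0 := by
        funext i
        exact emb_none0 rfl
      change φ (c (E (emb (fun _ => none : (cyc n).Pt)))) = 0
      rw [e1, map_zero, hc.half 0 (by rw [add_zero]), map_zero]
    obtain ⟨k, hk⟩ := h0
    refine ⟨fun _ => k, ?_, ?_⟩
    · intro i hi
      exact absurd hi (notMem_empty i)
    · intro y hy
      have hy0 : y = fun _ => none := funext fun i => hy i (notMem_empty i)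
      subst hy0
      change ν (fun _ => none) = k + 1 * k
      have h1 := hν (fun _ => none)
      have h2 : D.act D.c (fun _ => none) = fun _ => none := funext fun i => Dat.act_apply_none rfl
      rw [h2, hk] at h1
      have h3 : ((ν (fun _ => none) : ℤ) : ℚ) = ((k + 1 * k : ℤ) : ℚ) := by
        rw [← h1]; push_cast; ring
      exact_mod_cast h3
  have himgT : ∀ T ⊆ (univ : Finset ι), Even T.card → T.card ≤ 2 → D.Img 1 T ν := by
    intro T _ he h2
    have h3 : T.card = 0 ∨ T.card = 2 := by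
      obtain ⟨r, hr⟩ := he
      omega
    rcases h3 with h3 | h3
    · rw [card_eq_zero] at h3
      subst h3
      exact himg0
    · exact himg2 T h3
  -- the decomposition
  obtain ⟨e, k, hkD, hk2⟩ := hdec (fun i => neg_one_ne_one (hn' i)) lam
    (fun T _ he h4 => ⟨(hlam T he h4).1, (hlam T he h4).2.1, (hlam T he h4).2.2.1,
      fun T' _ h1 h2 => (hlam T he h4).2.2.2 T' h1 h2⟩) ν hνD (fun x _ => by
    change ν (D.act D.c x) = 1 * ν x
    rw [hνT, one_mul]) himgT
  have hkD0 : D.IsD0 univ k := hkD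
  set F := (univ : Finset ι).powerset.filter (fun T => Even T.card ∧ 4 ≤ T.card) with hF
  have hk3 : ∀ y, ν y = (∑ T ∈ F, e T * lam T y) + (k y + k (D.act D.c y)) := by
    intro y
    have h1 := hk2 y (hsupp y)
    change ν y - (∑ T ∈ F, e T • lam T) y = k y + 1 * k (D.act D.c y) at h1
    rw [Finset.sum_apply] at h1
    simp only [Pi.smul_apply, smul_eq_mul] at h1
    linarith
  -- the odd part
  have hodd1 : ∑ b, (x b : ℚ) * (ext ft (E.symm b) - ((ext ν (E.symm b) : ℤ) : ℚ) * (1 / 2)) = 0 := by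
    have h0 := rat_rel hn hco hN E x hx (fun y => ft y - (ν y : ℚ) * (1 / 2)) ?_ ?_
    · rw [← h0]
      refine sum_congr rfl fun b _ => ?_
      rw [ext_sub]
      congr 2
      exact (ext_map ((AddMonoidHom.mulRight (1 / 2 : ℚ)).comp
        (Int.castRingHom ℚ).toAddMonoidHom) ν (E.symm b)).symm
    · exact hft.sub (hνD.cast.map (AddMonoidHom.mulRight (1 / 2 : ℚ)))
    · intro y
      have h1 := hν y
      change ft (D.act D.c y) - (ν (D.act D.c y) : ℚ) * (1 / 2) = -(ft y - (ν y : ℚ) * (1 / 2))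
      rw [hνT]
      linear_combination h1
  set k' : D.Pt → ℤ := fun y => k (D.act D.c y) with hk'
  have hodd2 : ∑ b, (x b : ℚ) * (((ext k (E.symm b) : ℤ) : ℚ) - ((ext k' (E.symm b) : ℤ) : ℚ)) = 0 := by
    have h0 := rat_rel hn hco hN E x hx (fun y => (k y : ℚ) - (k' y : ℚ)) ?_ ?_
    · rw [← h0]
      refine sum_congr rfl fun b _ => ?_
      rw [ext_sub]
      congr 2
      · exact (ext_map (Int.castRingHom ℚ).toAddMonoidHom k (E.symm b)).symm
      · exact (ext_map (Int.castRingHom ℚ).toAddMonoidHom k' (E.symm b)).symm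
    · exact hkD0.cast.sub (hkD0.act D.c).cast
    · intro y
      change (k (D.act D.c y) : ℚ) - (k (D.act D.c (D.act D.c y)) : ℚ) =
        -((k y : ℚ) - (k (D.act D.c y) : ℚ))
      rw [Dat.act_c_c]; ring
  -- the parity
  have hk4 : ∀ a, ext ν a = (∑ T ∈ F, e T * ext (lam T) a) + (ext k a + ext k' a) := by
    intro a
    have h1 : ν = fun y => (∑ T ∈ F, e T * lam T y) + (k y + k' y) := funext hk3
    have h2 : ext ν a = ext (fun y => (∑ T ∈ F, e T * lam T y) + (k y + k' y)) a :=
      congrArg (fun g => ext g a) h1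
    rw [h2, ext_add, ext_add, ext_sum]
    congr 1
    refine sum_congr rfl fun T _ => ?_
    exact ext_map (AddMonoidHom.mulLeft (e T)) (lam T) a
  have heven : ∃ m : ℤ, ∑ b, x b * ext ν (E.symm b) = 2 * m := by
    have h1 : ∑ b, x b * ext ν (E.symm b) =
        (∑ T ∈ F, e T * ∑ b, x b * ext (lam T) (E.symm b)) +
          ∑ b, x b * (ext k (E.symm b) + ext k' (E.symm b)) := by
      have h2 : ∑ T ∈ F, e T * ∑ b, x b * ext (lam T) (E.symm b) =
          ∑ b, ∑ T ∈ F, x b * (e T * ext (lam T) (E.symm b)) := by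
        rw [sum_comm]
        refine sum_congr rfl fun T _ => ?_
        rw [mul_sum]
        refine sum_congr rfl fun b _ => ?_
        ring
      rw [h2, ← sum_add_distrib]
      refine sum_congr rfl fun b _ => ?_
      rw [hk4, ← mul_sum]
      ring
    have h3 : ∑ b, x b * (ext k (E.symm b) + ext k' (E.symm b)) =
        2 * ∑ b, x b * ext k (E.symm b) := by
      have h4 : ∑ b, x b * (ext k (E.symm b) - ext k' (E.symm b)) = 0 := by
        exact_mod_cast hodd2
      have h5 : ∑ b, x b * (ext k (E.symm b) + ext k' (E.symm b)) +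
          ∑ b, x b * (ext k (E.symm b) - ext k' (E.symm b)) =
          2 * ∑ b, x b * ext k (E.symm b) := by
        rw [← sum_add_distrib, mul_sum]
        refine sum_congr rfl fun b _ => ?_
        ring
      rw [h4, add_zero] at h5
      exact h5
    have h6 : (2 : ℤ) ∣ ∑ T ∈ F, e T * ∑ b, x b * ext (lam T) (E.symm b) := by
      apply dvd_sum
      intro T hTF
      rw [hF, mem_filter] at hTF
      exact (hbox T hTF.2.1 hTF.2.2).mul_left _
    obtain ⟨m', hm'⟩ := h6
    refine ⟨m' + ∑ b, x b * ext k (E.symm b), ?_⟩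
    rw [h1, h3, hm']; ring
  obtain ⟨m, hm⟩ := heven
  have hft2 : ∑ b, (x b : ℚ) * ext ft (E.symm b) = (m : ℚ) := by
    have h1 : ∑ b, (x b : ℚ) * ext ft (E.symm b) =
        (∑ b, (x b : ℚ) * ((ext ν (E.symm b) : ℤ) : ℚ)) * (1 / 2) := by
      rw [sum_mul, ← sub_eq_zero, ← sum_sub_distrib, ← hodd1]
      refine sum_congr rfl fun b _ => ?_
      ring
    have h2 : ∑ b, (x b : ℚ) * ((ext ν (E.symm b) : ℤ) : ℚ) = 2 * m := by exact_mod_cast hm
    rw [h1, h2]; ring
  rw [map_sum]
  have h5 : ∀ b : ZMod N, φ (x b • c b) = π ((x b : ℚ) * ext ft (E.symm b)) := by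
    intro b
    rw [map_zsmul]
    have h6 : φ (c b) = π (ext ft (E.symm b)) := by
      have e1 := c_eq_ext hn hco hN E hcφ (E.symm b)
      beta_reduce at e1
      rw [E.apply_symm_apply] at e1
      rw [e1, ← ext_map]
      congr 1
      funext y
      exact (hft' y).symm
    rw [h6, ← map_zsmul, zsmul_eq_mul]
  simp only [h5]
  rw [← map_sum, hft2, hint]

end

end Pool.Agent.N123.TF
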